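import Pool.Agent.H252.EL.Iface

/-!
The radius of comparison of the limit algebra is infinite (assembly).
-/

set_option autoImplicit false

noncomputable section

namespace Pool.Agent.H52.ELRCI

open Filter Topology
open scoped ENNReal NNReal Matrix.Norms.L2Operator ComplexOrder
open Pool.Agent.TH249 (Prj K0 Eqv IsPrj)
open Pool.Agent.H188R3 (IsLim)
open Pool.Agent.H252.EL

theorem sz_pos (D : Sys) (hD : D.Good) (i : ℕ) : 0 < D.n i := by
  induction i with
  | zero => exact Nat.one_pos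
  | succ i ih =>
    rw [D.n_succ]
    have := hD.lt i
    exact Nat.mul_pos ih (by omega)

theorem prod_S_pos (D : Sys) (hD : D.Good) (i r : ℕ) :
    (0 : ℝ) < ∏ l ∈ Finset.range r, (D.S (i + l) : ℝ) := by
  refine Finset.prod_pos fun l _ => ?_
  have := hD.lt (i + l)
  have h : 0 < D.S (i + l) := by omega
  exact_mod_cast h

/-- the numerical condition of `S_CORE` -/
theorem num {n M : ℕ} (hn : 0 < n) {S m : ℕ} (hS : (0 : ℝ) < S)
    (h : (1 - 1 / (2 * ((M : ℝ) + 1))) * S ≤ m) : M * n * S < (n + M * n) * m := by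
  have hM : (0 : ℝ) < (M : ℝ) + 1 := by positivity
  have hn' : (0 : ℝ) < n := by exact_mod_cast hn
  have h1 : ((M : ℝ) + 1 / 2) * S ≤ ((M : ℝ) + 1) * m := by
    have h2 := mul_le_mul_of_nonneg_left h hM.le
    have h3 : ((M : ℝ) + 1) * ((1 - 1 / (2 * ((M : ℝ) + 1))) * S) = ((M : ℝ) + 1 / 2) * S := by
      field_simp
      ring
    linarith
  have h4 : ((M : ℝ) * n * S) < ((n : ℝ) + M * n) * m := by
    have h5 := mul_le_mul_of_nonneg_left h1 hn'.le
    nlinarith [mul_pos hn' hS]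
  exact_mod_cast h4

theorem s_RCI : S_RCI := by
  intro hMASS hPATCH hBU hEMB hELT hCORE hBLD hPRJ hDIM D hD L _ j hL hR hT
  unfold rc
  rw [sInf_eq_top]
  rintro s ⟨r, rfl, hr⟩
  exfalso
  -- constants
  obtain ⟨R, hRr⟩ := exists_nat_ge (r : ℝ)
  set M : ℕ := 2 * (R + 3) with hM
  have hδ : (0 : ℝ) < 1 / (2 * ((M : ℝ) + 1)) := by positivity
  obtain ⟨i, hi1, hi2⟩ := ((hR M).and (hT _ hδ)).exists
  have hn : 0 < D.n i := sz_pos D hD.toGood i
  have hn' : (0 : ℝ) < D.n i := by exact_mod_cast hn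
  set n : ℕ := D.n i with hn_def
  set k₂ : ℕ := (R + 3) * n with hk₂
  have hk : 2 * k₂ + 1 ≤ D.d i true := by
    have : 2 * k₂ = M * n := by rw [hk₂, hM]; ring
    omega
  have hcard : Fintype.card (Fin k₂ × Fin 2) = Fintype.card (Fin M × Fin n) := by
    simp only [Fintype.card_prod, Fintype.card_fin]
    rw [hk₂, hM]
    ring
  let u : Fin k₂ × Fin 2 ≃ Fin M × Fin n := Fintype.equivOfCardEq hcard
  obtain ⟨ι, β, hι, hβ, hβ1, hβ2⟩ := hELT hEMB k₂ (D.d i true) (Fin M × Fin n) u 1 hk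
    u.injective one_pos
  have hκ : ((k₂ : ℝ) - 1) ≤ (M : ℝ) * D.n i := by
    have h1 : k₂ ≤ M * n := by
      rw [hk₂, hM]
      nlinarith
    have h2 : (k₂ : ℝ) ≤ (M : ℝ) * n := by exact_mod_cast h1
    rw [← hn_def]
    linarith
  obtain ⟨B, hB1, hB2, hB3, -, hB5⟩ := hBLD hMASS D hD i M true β ((k₂ : ℝ) - 1) hβ hβ1 hκ
  have hnM : n ≤ M * D.n i := by
    rw [← hn_def, hM]
    nlinarith
  have hnon := hCORE hPATCH hBU D hD.toGood L j hL i M n k₂ true ι u β B hι u.injective hβ2 hB3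
    hnM (fun r => by
      have h1 := hi2 r
      have h2 := prod_S_pos D hD.toGood i r
      refine num hn (S := ∏ l ∈ Finset.range r, D.S (i + l))
        (m := ∏ l ∈ Finset.range r, D.m (i + l)) ?_ ?_
      · rw [Nat.cast_prod]
        exact h2
      · rw [Nat.cast_prod, Nat.cast_prod]
        exact h1)
  set ρ : Bool → ℕ := fun b' => if b' = true then n else 0 with hρ
  have hρle : ∀ b, ρ b ≤ M * D.n i := by
    intro b
    simp only [hρ]
    split_ifs
    · exact hnM
    · exact Nat.zero_le _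
  obtain ⟨hP1, hP2⟩ := (hPRJ D hD.toGood i M).2 ρ hρle
  have hP1' : IsPrj ((D.cp i M ρ).map (j i)) := hP1.map (j i)
  apply hnon
  refine hr M _ _ ?_ ?_ ?_
  · refine ⟨(D.cp i M ρ).map (j i), ?_⟩
    rw [Matrix.star_eq_conjTranspose, hP1'.1, hP1'.2]
  · obtain ⟨y, hy⟩ := hB1
    refine ⟨y.map (j i), ?_⟩
    rw [hy]
    ext s t
    simp only [Matrix.map_apply, Matrix.mul_apply, Matrix.star_apply, map_sum, map_mul, map_star]
  · intro τ hτ
    obtain ⟨-, -, hm3, hm4, -⟩ := hMASS D hD L j hL τ hτ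
    have hposB : ∃ y : Matrix (Fin M) (Fin M) L, B.map (j i) = star y * y := by
      obtain ⟨y, hy⟩ := hB1
      refine ⟨y.map (j i), ?_⟩
      rw [hy]
      ext s t
      simp only [Matrix.map_apply, Matrix.mul_apply, Matrix.star_apply, map_sum, map_mul, map_star]
    have hposB' : ∃ y : Matrix (Fin M) (Fin M) L, 1 - B.map (j i) = star y * y := by
      obtain ⟨y, hy⟩ := hB2
      refine ⟨y.map (j i), ?_⟩
      have h1 : (1 - B).map (j i) = 1 - B.map (j i) := by
        ext s t
        simp only [Matrix.map_apply, Matrix.sub_apply, map_sub, Matrix.one_apply]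
        split_ifs <;> simp
      rw [← h1, hy]
      ext s t
      simp only [Matrix.map_apply, Matrix.mul_apply, Matrix.star_apply, map_sum, map_mul, map_star]
    obtain ⟨e, he1, he2⟩ := (hDIM L M (B.map (j i)) τ hτ).2 hposB hposB'
    refine ⟨(trM τ ((D.cp i M ρ).map (j i))).re, e,
      (hDIM L M ((D.cp i M ρ).map (j i)) τ hτ).1 hP1', he2, ?_⟩
    -- the trace of the projection is at most one
    have h1 : (trM τ ((D.cp i M ρ).map (j i))).re ≤ 1 := by
      rw [hP2 L j hL τ hτ]
      have hw := hm3 i true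
      have h4 := hm4 true
      have hq0 : (0 : ℝ) ≤ ((i : ℝ) + 1) / (i + 2) := by positivity
      have hq1 : ((i : ℝ) + 1) / (i + 2) ≤ 1 := by
        rw [div_le_one (by positivity)]
        linarith
      rw [Fintype.sum_bool, hw]
      simp only [hρ, if_true, Bool.false_eq_true, if_false, Nat.cast_zero, zero_div,
        Complex.ofReal_zero, zero_mul, add_zero]
      rw [← hn_def, div_self hn'.ne', Complex.ofReal_one, one_mul, Complex.ofReal_re]
      nlinarith
    have h2 := hB5 L j hL τ hτ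
    have h3 : (R : ℝ) + 2 ≤ ((k₂ : ℝ) - 1) / D.n i := by
      rw [le_div_iff₀ hn', hk₂]
      push_cast
      have : (1 : ℝ) ≤ n := by exact_mod_cast hn
      nlinarith
    linarith

end Pool.Agent.H52.ELRCI
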