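import Pool.Agent.H283.HT.Stm

/-! The full face case (HT-FULL). -/

set_option autoImplicit false

namespace Pool.Agent.H52.HTX

open Pool.Agent.H283.HT

theorem FULL_done (hSH : S_SH) (hDI : S_DI) (hLIGHT : S_LIGHT) (hPL4 : S_PL4) : S_FULL := by
  classical
  intro K hK hfull
  obtain ⟨hQ, -⟩ := hSH K hK
  obtain ⟨a, b, s, η, hs, hη, hη1, hp⟩ := hPL4 (Sh K) hQ
  obtain ⟨hD1, -⟩ := hDI (Sh K) hQ
  have hcov : ∀ x ∈ K, ∃ i : Fin 4, ∃ j : Fin 2,
      (((![a, -a, b, -b] : Fin 4 → P2) i, (![-(η / s), 3 / s] : Fin 2 → ℝ) j) : P3) ∈ C K x := by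
    rintro ⟨p, z⟩ hx
    have hpS : p ∈ Sh K := ⟨(p, z), hx, rfl⟩
    obtain ⟨w, hw, p', hp', hpw⟩ := hp p hpS
    have hwi : ∃ i : Fin 4, (![a, -a, b, -b] : Fin 4 → P2) i = w := by
      rcases hw with rfl | rfl | rfl | hw
      · exact ⟨0, rfl⟩
      · exact ⟨1, rfl⟩
      · exact ⟨2, rfl⟩
      · exact ⟨3, (Set.mem_singleton_iff.1 hw).symm⟩
    obtain ⟨i, hi⟩ := hwi
    have hin : p + s • w ∈ interior (Sh K) := by
      rw [hpw]
      refine hD1 p' hp' (1 - η) ?_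
      rw [abs_lt]
      constructor <;> linarith
    have htop : ((p + s • w, (1 : ℝ)) : P3) ∈ K := hfull _ (interior_subset hin)
    have hlow : ((p + s • w, 1 - 2 * η) : P3) ∈ K := by
      have h1 := hK.conv (hfull p' hp') hK.bot (by linarith : (0 : ℝ) ≤ 1 - η) hη.le (by ring)
      have h2 : (1 - η) • ((p', (1 : ℝ)) : P3) + η • (((0 : P2), (-1 : ℝ)) : P3) =
          (p + s • w, 1 - 2 * η) := by
        rw [hpw]
        refine Prod.ext ?_ ?_
        · simp
        · simp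
          ring
      rwa [h2] at h1
    have hz1 : z ≤ 1 := hK.le _ hx
    have hz0 : -1 ≤ z := hK.ge _ hx
    have hsk : s * -(η / s) = -η := by
      field_simp
    have hsk3 : s * (3 / s) = 3 := by
      field_simp
    rcases hz1.eq_or_lt with hz | hz
    · refine ⟨i, 0, ?_⟩
      rw [hi]
      show ((w, -(η / s)) : P3) ∈ C K (p, z)
      refine hLIGHT K hK p w z (-(η / s)) s s 1 s (1 - 2 * η) hx hs hin hs.le htop ?_ hs.le hlow ?_
      · rw [hsk, hz]
        linarith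
      · rw [hsk, hz]
        linarith
    · refine ⟨i, 1, ?_⟩
      rw [hi]
      show ((w, 3 / s) : P3) ∈ C K (p, z)
      refine hLIGHT K hK p w z (3 / s) s 0 1 s (1 - 2 * η) hx hs hin le_rfl ?_ ?_ hs.le hlow ?_
      · rw [zero_smul, add_zero]
        exact hfull p hpS
      · linarith
      · rw [hsk3]
        linarith
  refine ⟨(Finset.univ : Finset (Fin 4 × Fin 2)).image (fun ij =>
    (((![a, -a, b, -b] : Fin 4 → P2) ij.1, (![-(η / s), 3 / s] : Fin 2 → ℝ) ij.2) : P3)), ?_, ?_⟩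
  · refine Finset.card_image_le.trans ?_
    simp
  · intro x hx
    obtain ⟨i, j, h⟩ := hcov x hx
    exact ⟨_, Finset.mem_image.2 ⟨(i, j), Finset.mem_univ _, rfl⟩, h⟩

end Pool.Agent.H52.HTX
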