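import Pool.Agent.H465.OC.StmA

set_option autoImplicit false

namespace Pool.Agent.H52.OCRelDiv

open Polynomial Pool.Agent.H465.OC

theorem cancel_pow {p : ℕ} {B : Type} [CommRing B] (hnz : NZ p B) (a : ℕ) (s : B)
    (h : (p : B) ^ a * s = 0) : s = 0 := by
  induction a with
  | zero => simpa using h
  | succ a ih =>
    apply ih
    apply hnz
    rw [← h, pow_succ]
    ring

theorem unit_near {p : ℕ} [Fact p.Prime] (u v : ℤ_[p]) (hu : IsUnit u)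
    (h : (p : ℤ_[p]) ∣ v - u) : IsUnit v := by
  by_contra hv
  have h1 : v ∈ nonunits ℤ_[p] := hv
  have hp : (p : ℤ_[p]) ∈ nonunits ℤ_[p] := PadicInt.p_nonunit
  have h2 : v - u ∈ nonunits ℤ_[p] := by
    obtain ⟨t, ht⟩ := h
    rw [ht]
    intro h3
    exact hp (isUnit_of_mul_isUnit_left h3)
  have h3 := (IsLocalRing.maximalIdeal ℤ_[p]).sub_mem
    ((IsLocalRing.mem_maximalIdeal v).2 h1) ((IsLocalRing.mem_maximalIdeal _).2 h2)
  rw [sub_sub_cancel] at h3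
  exact (IsLocalRing.mem_maximalIdeal u).1 h3 hu

theorem unit_eval {p : ℕ} [Fact p.Prime] (h : ℤ_[p][X]) (c x : ℤ_[p]) (hu : IsUnit (h.eval c))
    (hx : (p : ℤ_[p]) ∣ x - c) : IsUnit (h.eval x) :=
  unit_near _ _ hu (hx.trans (Polynomial.sub_dvd_eval_sub x c h))

theorem level {p : ℕ} [Fact p.Prime] {B : Type} [CommRing B] [Algebra ℤ_[p] B] (j : B)
    (c : ℤ_[p]) (hI : Inj p j) (hN : NZ p B) (F : ℤ_[p] → ℤ_[p]) (s : B) (a : ℕ)
    (hR : Rel j c F ((p : B) ^ a * s)) (M : ℕ) :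
    ∃ g h : ℤ_[p][X], IsUnit (h.eval c) ∧ (p : B) ^ M ∣ aeval j h * s - aeval j g ∧
      ∀ x, (p : ℤ_[p]) ∣ x - c →
        (p : ℤ_[p]) ^ (M + a) ∣ h.eval x * F x - (p : ℤ_[p]) ^ a * g.eval x := by
  obtain ⟨g, h, hu, h1, h2⟩ := hR (M + a)
  have h3 : (p : B) ^ a ∣ aeval j g := by
    have h4 : (p : B) ^ a ∣ aeval j h * ((p : B) ^ a * s) - aeval j g :=
      (pow_dvd_pow _ (Nat.le_add_left a M)).trans h1
    have h5 : (p : B) ^ a ∣ aeval j h * ((p : B) ^ a * s) := ⟨aeval j h * s, by ring⟩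
    have h6 := dvd_sub h5 h4
    rwa [sub_sub_cancel] at h6
  obtain ⟨g1, hg1⟩ := hI a g h3
  refine ⟨g1, h, hu, ?_, fun x hx => ?_⟩
  · obtain ⟨t, ht⟩ := h1
    refine ⟨t, ?_⟩
    rw [← sub_eq_zero]
    apply cancel_pow hN a
    rw [hg1, map_mul, map_pow, map_natCast, pow_add] at ht
    linear_combination ht
  · have h7 := h2 x hx
    rw [hg1] at h7
    rw [eval_mul, eval_pow, eval_natCast] at h7
    exact h7

theorem part1 {p : ℕ} [Fact p.Prime] {B : Type} [CommRing B] [Algebra ℤ_[p] B] (j : B)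
    (c : ℤ_[p]) (hI : Inj p j) (hN : NZ p B) (F : ℤ_[p] → ℤ_[p]) (s : B) (a : ℕ)
    (hR : Rel j c F ((p : B) ^ a * s)) :
    ∃ F' : ℤ_[p] → ℤ_[p], Rel j c F' s ∧
      ∀ x, (p : ℤ_[p]) ∣ x - c → F x = (p : ℤ_[p]) ^ a * F' x := by
  classical
  have hp0 : (p : ℤ_[p]) ≠ 0 := by
    exact_mod_cast (Fact.out : p.Prime).ne_zero
  have hdiv : ∀ x, (p : ℤ_[p]) ∣ x - c → ∃ y, F x = (p : ℤ_[p]) ^ a * y := by
    intro x hx
    obtain ⟨g, h, hu, -, h2⟩ := level j c hI hN F s a hR 0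
    have h3 := h2 x hx
    rw [zero_add] at h3
    have h4 : (p : ℤ_[p]) ^ a ∣ h.eval x * F x := by
      have h5 : (p : ℤ_[p]) ^ a ∣ (p : ℤ_[p]) ^ a * g.eval x := Dvd.intro _ rfl
      have h6 := dvd_add h3 h5
      rwa [sub_add_cancel] at h6
    obtain ⟨y, hy⟩ := ((unit_eval h c x hu hx).dvd_mul_left).1 h4
    exact ⟨y, hy⟩
  refine ⟨fun x => if hx : (p : ℤ_[p]) ∣ x - c then Classical.choose (hdiv x hx) else 0, ?_, ?_⟩
  · intro M
    obtain ⟨g, h, hu, h1, h2⟩ := level j c hI hN F s a hR M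
    refine ⟨g, h, hu, h1, fun x hx => ?_⟩
    have h3 := h2 x hx
    have h4 := Classical.choose_spec (hdiv x hx)
    simp only [dif_pos hx]
    set y := Classical.choose (hdiv x hx)
    rw [h4, pow_add] at h3
    have h5 : (p : ℤ_[p]) ^ a * (p : ℤ_[p]) ^ M ∣ (p : ℤ_[p]) ^ a * (h.eval x * y - g.eval x) := by
      obtain ⟨t, ht⟩ := h3
      exact ⟨t, by linear_combination ht⟩
    exact (mul_dvd_mul_iff_left (pow_ne_zero a hp0)).1 h5
  · intro x hx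
    simp only [dif_pos hx]
    exact Classical.choose_spec (hdiv x hx)

theorem main : RelDiv := by
  intro p _ B _ _ j c hI hN
  refine ⟨fun F s a hR => part1 j c hI hN F s a hR, fun F hR x hx => ?_⟩
  by_contra hne
  obtain ⟨n, hn⟩ := FiniteMultiplicity.of_not_isUnit (a := (p : ℤ_[p])) PadicInt.p_nonunit hne
  apply hn
  have h0 : Rel j c F ((p : B) ^ (n + 1) * 0) := by
    rw [mul_zero]
    exact hR
  obtain ⟨F', -, h1⟩ := part1 j c hI hN F 0 (n + 1) h0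
  exact ⟨F' x, h1 x hx⟩

end Pool.Agent.H52.OCRelDiv
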