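import Pool.Agent.H724.DL.Stm

/-! DL-E1c: the checker can be started anywhere. -/

set_option autoImplicit false

namespace Pool.Agent.H52.DL

open Pool.Agent.H724.DL

variable {Γ W : Type}

theorem pre_succ {α : Type} (U : ℕ → α) (n : ℕ) : pre U (n + 1) = pre U n ++ [U n] := by
  simp [pre, List.range_succ]

/-- The word of the proof. -/
def Wd {α : Type} (U V : ℕ → α) (i j : ℕ) : ℕ → List α
  | 0 => pre U i ++ pre V (j + 2)
  | t + 1 => Wd U V i j t ++ [U (i + t), V (j + 2 + t)]

theorem sh_Wd {α : Type} (U V : ℕ → α) (i j t : ℕ) :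
    Sh (Wd U V i j t) (pre U (i + t)) (pre V (j + 2 + t)) := by
  induction t with
  | zero => exact Sh.concat _ _
  | succ t ih =>
    rw [← Nat.add_assoc i t 1, ← Nat.add_assoc (j + 2) t 1, pre_succ, pre_succ]
    exact ih.append (.left _ (.right _ .nil))

/-- a letter of side `true` clears the pending letter -/
theorem fstep_true (R : RS Γ W) (n : ℕ) (s : Option (Core Γ W × Fin (n + 2))) (y : Pay Γ)
    (h : fstep R n s (true, y) ≠ none) :
    ∃ lx ly d k, fstep R n s (true, y) = some (⟨lx, ly, none, d⟩, k) := by
  cases s with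
  | none => exact absurd rfl h
  | some t =>
    obtain ⟨⟨lx, ly, pend, d⟩, k⟩ := t
    by_cases hy : lok y ∧ phok ly y
    · cases pend with
      | none =>
        refine ⟨lx, some y.ph, .idle, act n .zero k, ?_⟩
        simp [fstep, cstep, hy]
      | some x =>
        cases hd : dstep R (decide (k.val = n)) d x y with
        | none =>
          exfalso
          apply h
          simp [fstep, cstep, hy, hd]
        | some r =>
          refine ⟨lx, some y.ph, r.1, act n r.2 k, ?_⟩
          simp [fstep, cstep, hy, hd]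
    · exfalso
      apply h
      simp [fstep, cstep, hy]

/-- a letter of side `true` without pending letter resets the checker -/
theorem fstep_true' (R : RS Γ W) (n : ℕ) (lx ly : Option (ZMod 5)) (d : DS W) (k : Fin (n + 2))
    (y : Pay Γ) (h : fstep R n (some (⟨lx, ly, none, d⟩, k)) (true, y) ≠ none) :
    fstep R n (some (⟨lx, ly, none, d⟩, k)) (true, y) = some (⟨lx, some y.ph, none, .idle⟩, 0) := by
  by_cases hy : lok y ∧ phok ly y
  · simp [fstep, cstep, hy, act]
  · exfalso
    apply h
    simp [fstep, cstep, hy]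

/-- a pair of letters moves the checker -/
theorem fstep_pair (R : RS Γ W) (n : ℕ) (lx ly : Option (ZMod 5)) (d : DS W) (k : Fin (n + 2))
    (x y : Pay Γ)
    (h : fstep R n (fstep R n (some (⟨lx, ly, none, d⟩, k)) (false, x)) (true, y) ≠ none) :
    ∃ lx' ly' r, dn R n (some (d, k)) x y = some r ∧
      fstep R n (fstep R n (some (⟨lx, ly, none, d⟩, k)) (false, x)) (true, y) =
        some (⟨lx', ly', none, r.1⟩, r.2) := by
  by_cases hx : lok x ∧ phok lx x
  · have e1 : fstep R n (some (⟨lx, ly, none, d⟩, k)) (false, x) =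
        some (⟨some x.ph, ly, some x, d⟩, k) := by
      simp [fstep, cstep, hx, act]
    rw [e1] at h ⊢
    by_cases hy : lok y ∧ phok ly y
    · cases hd : dstep R (decide (k.val = n)) d x y with
      | none =>
        exfalso
        apply h
        simp [fstep, cstep, hy, hd]
      | some r =>
        refine ⟨some x.ph, some y.ph, (r.1, act n r.2 k), ?_, ?_⟩
        · simp [dn, hd]
        · simp [fstep, cstep, hy, hd]
    · exfalso
      apply h
      simp [fstep, cstep, hy]
  · exfalso
    apply h
    have e1 : fstep R n (some (⟨lx, ly, none, d⟩, k)) (false, x) = none := by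
      simp [fstep, cstep, hx]
    rw [e1]
    rfl

theorem e1c : S_E1c := by
  intro Γ W R n s X Y h i j
  set U : ℕ → Bool × Pay Γ := fun i => (false, X i) with hU
  set V : ℕ → Bool × Pay Γ := fun j => (true, Y j) with hV
  have hav : ∀ t, (Wd U V i j t).foldl (fstep R n) s ≠ none := fun t => h _ _ _ (sh_Wd U V i j t)
  have key : ∀ t, ∃ lx ly r, drun R n X (fun j => Y (j + 2)) i j t = some r ∧
      (Wd U V i j t).foldl (fstep R n) s = some (⟨lx, ly, none, r.1⟩, r.2) := by
    intro t
    induction t with
    | zero =>
      have h0 := hav 0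
      have e0 : (Wd U V i j 0).foldl (fstep R n) s =
          fstep R n (fstep R n ((pre U i ++ pre V j).foldl (fstep R n) s) (true, Y j))
            (true, Y (j + 1)) := by
        show (pre U i ++ pre V (j + 2)).foldl (fstep R n) s = _
        rw [show j + 2 = j + 1 + 1 from rfl, pre_succ, pre_succ]
        simp only [List.foldl_append, List.foldl_cons, List.foldl_nil, hV]
      rw [e0] at h0 ⊢
      have h1 : fstep R n ((pre U i ++ pre V j).foldl (fstep R n) s) (true, Y j) ≠ none := by
        intro hc
        apply h0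
        rw [hc]
        rfl
      obtain ⟨lx, ly, d, k, e1⟩ := fstep_true R n _ _ h1
      rw [e1] at h0 ⊢
      exact ⟨lx, some (Y (j + 1)).ph, (.idle, 0), rfl, fstep_true' R n lx ly d k _ h0⟩
    | succ t ih =>
      obtain ⟨lx, ly, r, hr, e⟩ := ih
      have h1 := hav (t + 1)
      have e1 : (Wd U V i j (t + 1)).foldl (fstep R n) s =
          fstep R n (fstep R n (some (⟨lx, ly, none, r.1⟩, r.2)) (false, X (i + t)))
            (true, Y (j + 2 + t)) := by
        show (Wd U V i j t ++ [U (i + t), V (j + 2 + t)]).foldl (fstep R n) s = _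
        rw [List.foldl_append, e]
        rfl
      rw [e1] at h1 ⊢
      obtain ⟨lx', ly', r', hr', e'⟩ := fstep_pair R n lx ly r.1 r.2 _ _ h1
      refine ⟨lx', ly', r', ?_, e'⟩
      show dn R n (drun R n X (fun j => Y (j + 2)) i j t) (X (i + t)) (Y (j + t + 2)) = some r'
      rw [hr, show j + t + 2 = j + 2 + t by omega]
      exact hr'
  intro t hc
  obtain ⟨_, _, r, hr, _⟩ := key t
  rw [hc] at hr
  cases hr

end Pool.Agent.H52.DL
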