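import Pool.Agent.H867.FT.Gen11

set_option autoImplicit false

/-!
# Project FT (helper867), task CIK (helper52): every Cartier map of `R` is `Φ(u ·)`
-/

namespace Pool.Agent.H52.FT867CIK

open Pool.Agent.H867.FT

/-- Frobenius is finite on localizations of an F-finite ring (as in `Pool.Agent.H187.FT867FFI`). -/
theorem frob_loc (p : ℕ) [Fact p.Prime] (A B : Type) [CommRing A] [CommRing B]
    [Algebra A B] (M : Submonoid A) [IsLocalization M B] [CharP A p] [CharP B p]
    (hA : (frobenius A p).Finite) : (frobenius B p).Finite := by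
  have hp : p ≠ 0 := (Fact.out : p.Prime).ne_zero
  have hl : IsLocalization (M.map (frobenius A p)) B := by
    refine (isLocalization_iff _ _).2 ⟨?_, ?_, ?_⟩
    · rintro ⟨_, s, hs, rfl⟩
      show IsUnit (algebraMap A B (s ^ p))
      rw [map_pow]
      exact (IsLocalization.map_units B (⟨s, hs⟩ : M)).pow p
    · intro z
      obtain ⟨⟨a, s⟩, h⟩ := IsLocalization.surj M z
      refine ⟨⟨a * (s : A) ^ (p - 1), ⟨(s : A) ^ p, s, s.2, rfl⟩⟩, ?_⟩
      show z * algebraMap A B ((s : A) ^ p) = algebraMap A B (a * (s : A) ^ (p - 1))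
      have e : (s : A) ^ p = s * (s : A) ^ (p - 1) := by
        rw [← pow_succ', Nat.sub_add_cancel (Nat.one_le_iff_ne_zero.2 hp)]
      rw [e, map_mul, map_mul, ← mul_assoc, h]
    · rintro x y h
      obtain ⟨c, hc⟩ := IsLocalization.exists_of_eq (M := M) h
      refine ⟨⟨(c : A) ^ p, c, c.2, rfl⟩, ?_⟩
      show (c : A) ^ p * x = (c : A) ^ p * y
      have e : (c : A) ^ p = (c : A) ^ (p - 1) * c := by
        rw [← pow_succ, Nat.sub_add_cancel (Nat.one_le_iff_ne_zero.2 hp)]
      rw [e, mul_assoc, mul_assoc, hc]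
  have h1 := RingHom.finite_localizationPreserves (frobenius A p) M B B hA
  have h2 : IsLocalization.map (S := B) B (frobenius A p) (Submonoid.le_comap_map M)
      = frobenius B p := by
    refine IsLocalization.ringHom_ext M ?_
    rw [IsLocalization.map_comp]
    ext x
    simp [frobenius_def]
  rw [h2] at h1
  exact h1

/-- `K` as a vector space over itself, by `c • x = c ^ p * x` -/
def FV (K : Type) (_p : ℕ) : Type := K

section

variable (p : ℕ) [Fact p.Prime] (K : Type) [Field K] [CharP K p]

noncomputable instance : AddCommGroup (FV K p) := inferInstanceAs (AddCommGroup K)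

noncomputable instance : Module K (FV K p) := (frobenius K p).toAlgebra.toModule

variable {p K}

/-- the underlying element -/
def tk (x : FV K p) : K := x

/-- the element of the twisted vector space -/
def tv (p : ℕ) {K : Type} (x : K) : FV K p := x

/-- a Cartier map as a linear form -/
noncomputable def lin {ψ : K →+ K} (h : IsCartier p ψ) : Module.Dual K (FV K p) where
  toFun x := ψ x
  map_add' x y := map_add ψ x y
  map_smul' c x := h c x

omit [Fact p.Prime] [CharP K p] in
theorem cart_mul {Φ : K →+ K} (h : IsCartier p Φ) (u : K) : IsCartier p (Φ.comp (AddMonoidHom.mulLeft u)) := by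
  intro a b
  have h1 : u * (a ^ p * b) = a ^ p * (u * b) := by ring
  simp only [AddMonoidHom.comp_apply, AddMonoidHom.coe_mulLeft]
  rw [h1]
  exact h a (u * b)

/-- `u ↦ Φ (u ·)` -/
noncomputable def tht {Φ : K →+ K} (h : IsCartier p Φ) : FV K p →ₗ[K] Module.Dual K (FV K p) where
  toFun u := lin (cart_mul h u)
  map_add' u v := by
    apply LinearMap.ext
    intro x
    show Φ ((tk u + tk v) * tk x) = Φ (tk u * tk x) + Φ (tk v * tk x)
    rw [add_mul, map_add]
  map_smul' c u := by
    apply LinearMap.ext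
    intro x
    show Φ ((c ^ p * tk u) * tk x) = c * Φ (tk u * tk x)
    rw [mul_assoc]
    exact h c _

theorem tht_inj {Φ : K →+ K} (h : IsCartier p Φ) (h0 : Φ ≠ 0) : Function.Injective (tht h) := by
  rw [injective_iff_map_eq_zero]
  intro u hu
  by_contra hne
  apply h0
  ext y
  have hne' : tk u ≠ 0 := hne
  have h1 : tht h u (tv p ((tk u)⁻¹ * y)) = 0 := by
    rw [hu]
    rfl
  have h2 : Φ (tk u * ((tk u)⁻¹ * y)) = 0 := h1
  rw [mul_inv_cancel_left₀ hne'] at h2
  rw [h2]
  rfl

theorem tht_surj {Φ : K →+ K} (h : IsCartier p Φ) (h0 : Φ ≠ 0) (hK : (frobenius K p).Finite) :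
    Function.Surjective (tht h) := by
  have hfin : Module.Finite K (FV K p) := hK
  exact (LinearMap.injective_iff_surjective_of_finrank_eq_finrank
    (Subspace.dual_finrank_eq (K := K) (V := FV K p)).symm).1 (tht_inj h h0)

end

theorem cik (h : Pool.Agent.H867.FT.S_CEK) : Pool.Agent.H867.FT.S_CIK := by
  intro p _ R K _ _ _ _ _ _ hR Φ hΦ hΦ0 φ hφ
  have hcK : CharP K p := charP_of_injective_algebraMap (IsFractionRing.injective R K) p
  have hK : (frobenius K p).Finite := frob_loc p R K (nonZeroDivisors R) hR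
  obtain ⟨Ψ, hΨ, he⟩ := h p R K φ hφ
  obtain ⟨u, hu⟩ := tht_surj hΦ hΦ0 hK (lin hΨ)
  refine ⟨u, fun r => ?_⟩
  rw [← he r]
  have h1 : tht hΦ u (tv p (algebraMap R K r)) = lin hΨ (tv p (algebraMap R K r)) := by
    rw [hu]
  exact h1.symm

end Pool.Agent.H52.FT867CIK
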