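import Pool.Agent.H867.FT.Stm

/-!
# DIM: Krull dimension of the local ring of the extremal cone
-/

set_option autoImplicit false

namespace Pool.Agent.H52.FT867DIM

open Pool.Agent.H867.FT

variable {n : ℕ}

/-- the hypotheses on the cone -/
structure Ext (C : Cone (n + 3) (n + 3 + 1)) : Prop where
  h1 : ∀ i : Fin (n + 3), C.v i.castSucc = Pi.single i 1
  h2 : ∀ j : Fin (n + 3), C.v (Fin.last (n + 3)) j =
      if (j : ℕ) = 0 then 2 else if (j : ℕ) = 1 then 1 else if (j : ℕ) = 2 then -1 else 0

theorem last_dot {C : Cone (n + 3) (n + 3 + 1)} (hC : Ext C) (u : Fin (n + 3) → ℤ) :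
    C.v (Fin.last (n + 3)) ⬝ᵥ u = 2 * u 0 + u 1 - u 2 := by
  unfold dotProduct
  rw [Fin.sum_univ_succ, Fin.sum_univ_succ, Fin.sum_univ_succ]
  have h : ∑ i : Fin n, C.v (Fin.last (n + 3)) i.succ.succ.succ * u i.succ.succ.succ = 0 := by
    refine Finset.sum_eq_zero (fun i _ => ?_)
    rw [hC.h2]
    simp
  rw [h, hC.h2, hC.h2, hC.h2]
  have e1 : (Fin.succ (0 : Fin (n + 2))) = (1 : Fin (n + 3)) := rfl
  have e2 : (Fin.succ (Fin.succ (0 : Fin (n + 1)))) = (2 : Fin (n + 3)) := rfl
  have v0 : ((0 : Fin (n + 3)) : ℕ) = 0 := rfl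
  have v1 : ((1 : Fin (n + 3)) : ℕ) = 1 := rfl
  have v2 : ((2 : Fin (n + 3)) : ℕ) = 2 := Fin.val_two
  rw [e2, e1, v0, v1, v2, if_pos rfl, if_neg one_ne_zero, if_pos rfl, if_neg (by norm_num),
    if_neg (by norm_num), if_pos rfl]
  ring

theorem mem_iff {C : Cone (n + 3) (n + 3 + 1)} (hC : Ext C) (u : Fin (n + 3) → ℤ) :
    u ∈ C.S ↔ (∀ i, 0 ≤ u i) ∧ u 2 ≤ 2 * u 0 + u 1 := by
  rw [C.mem_S]
  constructor
  · intro h
    refine ⟨fun i => ?_, ?_⟩
    · have := h i.castSucc
      rwa [hC.h1, single_one_dotProduct] at this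
    · have := h (Fin.last (n + 3))
      rw [last_dot hC] at this
      linarith
  · rintro ⟨h1, h2⟩ i
    refine Fin.lastCases ?_ (fun i => ?_) i
    · rw [last_dot hC]
      linarith
    · rw [hC.h1, single_one_dotProduct]
      exact h1 i

/-! ### the domain property -/

instance instUS {d m : ℕ} (C : Cone d m) : UniqueSums C.S :=
  UniqueSums.of_injective_addHom (C.S.subtype : C.S →ₙ+ (Fin d → ℤ)) Subtype.val_injective
    inferInstance

theorem isDomain {d m : ℕ} (C : Cone d m) (K : Type) [Field K] : IsDomain (C.Ring K) := by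
  infer_instance

/-! ### the retractions onto the faces -/

section faces

variable (C : Cone (n + 3) (n + 3 + 1)) (K : Type) [Field K]

open Classical in
/-- the restriction to the face of the `u` with `u i = 0` for `i ≥ j` -/
noncomputable def rho (hC : Ext C) (j : ℕ) : C.Ring K →ₐ[K] C.Ring K :=
  AddMonoidAlgebra.lift K (C.Ring K) C.S
    { toFun := fun u => if ∀ i : Fin (n + 3), j ≤ (i : ℕ) →
        ((Multiplicative.toAdd u : C.S) : Fin (n + 3) → ℤ) i = 0 then
          AddMonoidAlgebra.single (Multiplicative.toAdd u) 1 else 0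
      map_one' := by
        rw [if_pos]
        · rfl
        · intro i _
          rfl
      map_mul' := by
        intro a b
        have ha := ((mem_iff hC _).1 (Multiplicative.toAdd a).2).1
        have hb := ((mem_iff hC _).1 (Multiplicative.toAdd b).2).1
        by_cases h1 : ∀ i : Fin (n + 3), j ≤ (i : ℕ) →
            ((Multiplicative.toAdd a : C.S) : Fin (n + 3) → ℤ) i = 0
        · by_cases h2 : ∀ i : Fin (n + 3), j ≤ (i : ℕ) →
            ((Multiplicative.toAdd b : C.S) : Fin (n + 3) → ℤ) i = 0
          · rw [if_pos h1, if_pos h2, if_pos, AddMonoidAlgebra.single_mul_single, one_mul]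
            · rfl
            · intro i hi
              have e1 := h1 i hi
              have e2 := h2 i hi
              show ((Multiplicative.toAdd a : C.S) : Fin (n + 3) → ℤ) i +
                ((Multiplicative.toAdd b : C.S) : Fin (n + 3) → ℤ) i = 0
              rw [e1, e2, add_zero]
          · rw [if_neg h2, mul_zero, if_neg]
            intro h
            apply h2
            intro i hi
            have e1 : ((Multiplicative.toAdd a : C.S) : Fin (n + 3) → ℤ) i +
                ((Multiplicative.toAdd b : C.S) : Fin (n + 3) → ℤ) i = 0 := h i hi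
            have e2 := ha i
            have e3 := hb i
            omega
        · rw [if_neg h1, zero_mul, if_neg]
          intro h
          apply h1
          intro i hi
          have e1 : ((Multiplicative.toAdd a : C.S) : Fin (n + 3) → ℤ) i +
              ((Multiplicative.toAdd b : C.S) : Fin (n + 3) → ℤ) i = 0 := h i hi
          have e2 := ha i
          have e3 := hb i
          omega }

open Classical in
theorem rho_single (hC : Ext C) (j : ℕ) (u : C.S) :
    rho C K hC j (AddMonoidAlgebra.single u 1) =
      if ∀ i : Fin (n + 3), j ≤ (i : ℕ) → (u : Fin (n + 3) → ℤ) i = 0 then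
        AddMonoidAlgebra.single u 1 else 0 := by
  unfold rho
  rw [AddMonoidAlgebra.lift_single, one_smul]
  rfl

theorem rho_comp (hC : Ext C) (j : ℕ) : (rho C K hC j).comp (rho C K hC (j + 1)) = rho C K hC j := by
  classical
  apply AddMonoidAlgebra.algHom_ext
  · intro u
    rw [AlgHom.comp_apply, rho_single C K hC (j + 1)]
    by_cases h : ∀ i : Fin (n + 3), j + 1 ≤ (i : ℕ) → (u : Fin (n + 3) → ℤ) i = 0
    · rw [if_pos h]
    · rw [if_neg h, map_zero, rho_single, if_neg]
      intro h'
      exact h (fun i hi => h' i (by omega))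
  · exact Subsingleton.elim _ _

/-- the primes of the chain -/
noncomputable def QQ (hC : Ext C) (j : ℕ) : Ideal (C.Ring K) := RingHom.ker (rho C K hC j)

instance instQ (hC : Ext C) (j : ℕ) : (QQ C K hC j).IsPrime := by
  have := isDomain C K
  exact RingHom.ker_isPrime _

theorem eI_mem (hC : Ext C) (i : Fin (n + 3)) (hi : (i : ℕ) ≠ 2) :
    (Pi.single i 1 : Fin (n + 3) → ℤ) ∈ C.S := by
  rw [mem_iff hC]
  have hi2 : i ≠ 2 := by
    intro h
    rw [h] at hi
    exact hi Fin.val_two
  refine ⟨fun l => ?_, ?_⟩
  · rw [Pi.single_apply]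
    split_ifs <;> norm_num
  · rw [Pi.single_apply, Pi.single_apply, Pi.single_apply, if_neg (fun h => hi2 h.symm)]
    split_ifs <;> norm_num

theorem e02_mem (hC : Ext C) :
    (Pi.single 0 1 + Pi.single 2 1 : Fin (n + 3) → ℤ) ∈ C.S := by
  rw [mem_iff hC]
  have h20 : (2 : Fin (n + 3)) ≠ 0 := by
    intro h
    have := congrArg Fin.val h
    rw [Fin.val_two] at this
    exact absurd this (by simp)
  have h21 : (2 : Fin (n + 3)) ≠ 1 := by
    intro h
    have := congrArg Fin.val h
    rw [Fin.val_two] at this
    exact absurd this (by simp)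
  have h10 : (1 : Fin (n + 3)) ≠ 0 := by
    intro h
    have := congrArg Fin.val h
    exact absurd this (by simp)
  refine ⟨fun l => ?_, ?_⟩
  · rw [Pi.add_apply, Pi.single_apply, Pi.single_apply]
    split_ifs <;> norm_num
  · simp only [Pi.add_apply, Pi.single_apply, if_neg h20, if_neg h20.symm, if_neg h21.symm,
      if_neg h10]
    norm_num

theorem exists_face (hC : Ext C) (j : ℕ) (hj : j < n + 3) :
    ∃ u : C.S, (∀ i : Fin (n + 3), j + 1 ≤ (i : ℕ) → (u : Fin (n + 3) → ℤ) i = 0) ∧
      (u : Fin (n + 3) → ℤ) ⟨j, hj⟩ = 1 := by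
  by_cases h : j = 2
  · subst h
    refine ⟨⟨_, e02_mem C hC⟩, fun i hi => ?_, ?_⟩
    · show (Pi.single 0 1 + Pi.single 2 1 : Fin (n + 3) → ℤ) i = 0
      rw [Pi.add_apply, Pi.single_apply, Pi.single_apply, if_neg, if_neg]
      · norm_num
      · intro h
        rw [h, Fin.val_two] at hi
        omega
      · intro h
        rw [h] at hi
        have : ((0 : Fin (n + 3)) : ℕ) = 0 := rfl
        omega
    · show (Pi.single 0 1 + Pi.single 2 1 : Fin (n + 3) → ℤ) ⟨2, hj⟩ = 1
      have e : (⟨2, hj⟩ : Fin (n + 3)) = 2 := Fin.ext Fin.val_two.symm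
      rw [e, Pi.add_apply, Pi.single_apply, Pi.single_apply, if_pos rfl, if_neg]
      · norm_num
      · intro h
        have := congrArg Fin.val h
        rw [Fin.val_two] at this
        exact absurd this (by simp)
  · refine ⟨⟨_, eI_mem C hC ⟨j, hj⟩ h⟩, fun i hi => ?_, ?_⟩
    · show (Pi.single ⟨j, hj⟩ 1 : Fin (n + 3) → ℤ) i = 0
      rw [Pi.single_apply, if_neg]
      intro h
      rw [h] at hi
      simp at hi
    · show (Pi.single ⟨j, hj⟩ 1 : Fin (n + 3) → ℤ) ⟨j, hj⟩ = 1
      rw [Pi.single_apply, if_pos rfl]

theorem QQ_lt (hC : Ext C) (j : ℕ) (hj : j < n + 3) : QQ C K hC (j + 1) < QQ C K hC j := by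
  classical
  refine SetLike.lt_iff_le_and_exists.2 ⟨?_, ?_⟩
  · intro f hf
    have hf' : rho C K hC (j + 1) f = 0 := hf
    show rho C K hC j f = 0
    rw [← rho_comp C K hC j, AlgHom.comp_apply, hf', map_zero]
  · obtain ⟨u, hu1, hu2⟩ := exists_face C hC j hj
    refine ⟨AddMonoidAlgebra.single u 1, ?_, ?_⟩
    · show rho C K hC j (AddMonoidAlgebra.single u 1) = 0
      rw [rho_single, if_neg]
      intro h
      have := h ⟨j, hj⟩ (le_refl _)
      omega
    · intro h
      have h' : rho C K hC (j + 1) (AddMonoidAlgebra.single u 1) = 0 := h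
      rw [rho_single, if_pos hu1] at h'
      exact one_ne_zero (AddMonoidAlgebra.single_eq_zero.1 h')

theorem QQ_height (hC : Ext C) : ∀ m : ℕ, m ≤ n + 3 →
    (m : ℕ∞) ≤ (QQ C K hC (n + 3 - m)).height := by
  intro m
  induction m with
  | zero => intro _; simp
  | succ m ih =>
    intro hm
    have h1 := ih (by omega)
    have e : n + 3 - m = (n + 3 - (m + 1)) + 1 := by omega
    rw [e] at h1
    have h2 := Ideal.height_add_one_le_of_lt_of_isPrime (QQ_lt C K hC (n + 3 - (m + 1)) (by omega))
    calc ((m + 1 : ℕ) : ℕ∞) = (m : ℕ∞) + 1 := by push_cast; rfl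
      _ ≤ (QQ C K hC (n + 3 - (m + 1) + 1)).height + 1 := by gcongr
      _ ≤ _ := h2

theorem QQ_le (hC : Ext C) : QQ C K hC 0 ≤ C.maxIdeal K := by
  classical
  intro f hf
  have hf' : rho C K hC 0 f = 0 := hf
  have key : (AddMonoidAlgebra.lift K K C.S (1 : Multiplicative C.S →* K)).comp (rho C K hC 0) =
      C.aug K := by
    apply AddMonoidAlgebra.algHom_ext
    · intro u
      rw [AlgHom.comp_apply, rho_single]
      rw [Cone.aug_eq_lift]
      rw [AddMonoidAlgebra.lift_single, one_smul]
      by_cases h : u = 0
      · subst h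
        have hp : ∀ i : Fin (n + 3), 0 ≤ (i : ℕ) → ((0 : C.S) : Fin (n + 3) → ℤ) i = 0 :=
          fun i _ => rfl
        rw [if_pos hp, AddMonoidAlgebra.lift_single, one_smul]
        simp
      · rw [if_neg, map_zero]
        · simp [h]
        · intro h'
          apply h
          apply Subtype.ext
          funext i
          exact h' i (Nat.zero_le _)
    · exact Subsingleton.elim _ _
  show C.aug K f = 0
  rw [← key, AlgHom.comp_apply, hf', map_zero]

theorem lower (hC : Ext C) : ((n + 3 : ℕ) : ℕ∞) ≤ (C.maxIdeal K).height := by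
  have h := QQ_height C K hC (n + 3) (le_refl _)
  rw [Nat.sub_self] at h
  exact h.trans (Ideal.height_mono (QQ_le C K hC))

end faces

/-! ### the upper bound -/

section upper

variable {C : Cone (n + 3) (n + 3 + 1)} (K : Type) [Field K]

theorem f20 : (2 : Fin (n + 3)) ≠ 0 := by
  intro h
  have := congrArg Fin.val h
  rw [Fin.val_two] at this
  exact absurd this (by simp)

theorem f21 : (2 : Fin (n + 3)) ≠ 1 := by
  intro h
  have := congrArg Fin.val h
  rw [Fin.val_two] at this
  exact absurd this (by simp)

theorem f10 : (1 : Fin (n + 3)) ≠ 0 := by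
  intro h
  have := congrArg Fin.val h
  exact absurd this (by simp)

theorem e12_mem (hC : Ext C) :
    (Pi.single 1 1 + Pi.single 2 1 : Fin (n + 3) → ℤ) ∈ C.S := by
  rw [mem_iff hC]
  refine ⟨fun l => ?_, ?_⟩
  · rw [Pi.add_apply, Pi.single_apply, Pi.single_apply]
    split_ifs <;> norm_num
  · simp only [Pi.add_apply, Pi.single_apply, if_neg f20, if_neg f20.symm, if_neg f21.symm,
      if_neg f21, if_neg f10, if_neg f10.symm]
    norm_num

theorem e022_mem (hC : Ext C) :
    (Pi.single 0 1 + Pi.single 2 2 : Fin (n + 3) → ℤ) ∈ C.S := by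
  rw [mem_iff hC]
  refine ⟨fun l => ?_, ?_⟩
  · rw [Pi.add_apply, Pi.single_apply, Pi.single_apply]
    split_ifs <;> norm_num
  · simp only [Pi.add_apply, Pi.single_apply, if_neg f20, if_neg f20.symm, if_neg f21.symm,
      if_neg f21, if_neg f10, if_neg f10.symm]
    norm_num

/-- monomials -/
noncomputable def mon (u : Fin (n + 3) → ℤ) (hu : u ∈ C.S) : C.Ring K :=
  AddMonoidAlgebra.single ⟨u, hu⟩ 1

theorem mon_mul (u v w : Fin (n + 3) → ℤ) (hu : u ∈ C.S) (hv : v ∈ C.S) (hw : w ∈ C.S)
    (h : u + v = w) : mon K u hu * mon K v hv = mon K w hw := by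
  subst h
  unfold mon
  rw [AddMonoidAlgebra.single_mul_single, one_mul]
  rfl

/-- the parameters -/
noncomputable def yy (hC : Ext C) (i : Fin (n + 3)) : C.Ring K :=
  if h : (i : ℕ) = 2 then mon K _ (e022_mem hC) + mon K _ (eI_mem C hC 1 (by simp))
  else if (i : ℕ) = 1 then mon K _ (e12_mem hC) else mon K _ (eI_mem C hC i h)

/-- the generating property: an induction principle -/
theorem gen_induction (hC : Ext C) (Q : (u : Fin (n + 3) → ℤ) → u ∈ C.S → Prop)
    (h0 : ∀ h, Q 0 h)
    (hadd : ∀ u v (hu : u ∈ C.S) (hv : v ∈ C.S), Q u hu → Q v hv → Q (u + v) (C.S.add_mem hu hv))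
    (hI : ∀ (i : Fin (n + 3)) (hi : (i : ℕ) ≠ 2), Q _ (eI_mem C hC i hi))
    (h02 : Q _ (e02_mem C hC)) (h12 : Q _ (e12_mem hC)) (h022 : Q _ (e022_mem hC)) :
    ∀ (N : ℕ) (u : Fin (n + 3) → ℤ) (hu : u ∈ C.S), (∑ i, u i) ≤ N → Q u hu := by
  have step : ∀ (g : Fin (n + 3) → ℤ) (hg : g ∈ C.S), Q g hg → 1 ≤ ∑ i, g i →
      ∀ (N : ℕ), (∀ (u : Fin (n + 3) → ℤ) (hu : u ∈ C.S), (∑ i, u i) ≤ N → Q u hu) →
      ∀ (u : Fin (n + 3) → ℤ) (hu : u ∈ C.S), (∑ i, u i) ≤ (N + 1 : ℕ) → u - g ∈ C.S → Q u hu := by
    intro g hg hQ hs N ih u hu hN hug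
    have h1 : (∑ i, (u - g) i) ≤ N := by
      simp only [Pi.sub_apply, Finset.sum_sub_distrib]
      push_cast at hN
      omega
    have h2 := hadd g (u - g) hg hug hQ (ih _ hug h1)
    have h3 : g + (u - g) = u := by abel
    have h4 : ∀ (w : Fin (n + 3) → ℤ) (hw : w ∈ C.S), w = u → Q w hw → Q u hu := by
      intro w hw e hq
      subst e
      exact hq
    exact h4 _ _ h3 h2
  intro N
  induction N with
  | zero =>
    intro u hu hN
    have hp := ((mem_iff hC u).1 hu).1
    have hz : u = 0 := by
      have h1 : ∑ i, u i = 0 := le_antisymm hN (Finset.sum_nonneg (fun i _ => hp i))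
      have h2 := (Finset.sum_eq_zero_iff_of_nonneg (fun i _ => hp i)).1 h1
      funext i
      exact h2 i (Finset.mem_univ i)
    subst hz
    exact h0 hu
  | succ N ih =>
    intro u hu hN
    obtain ⟨hp, hq⟩ := (mem_iff hC u).1 hu
    by_cases hA : ∃ i : Fin (n + 3), 3 ≤ (i : ℕ) ∧ 1 ≤ u i
    · obtain ⟨i, hi, hui⟩ := hA
      refine step _ (eI_mem C hC i (by omega)) (hI i (by omega)) (by simp) N ih u hu hN ?_
      rw [mem_iff hC]
      have n0 : (0 : Fin (n + 3)) ≠ i := by
        intro h
        rw [← h] at hi
        exact absurd hi (by simp)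
      have n1 : (1 : Fin (n + 3)) ≠ i := by
        intro h
        rw [← h] at hi
        exact absurd hi (by simp)
      have n2 : (2 : Fin (n + 3)) ≠ i := by
        intro h
        rw [← h, Fin.val_two] at hi
        omega
      refine ⟨fun l => ?_, ?_⟩
      · rw [Pi.sub_apply, Pi.single_apply]
        have := hp l
        split_ifs with h
        · subst h
          omega
        · omega
      · simp only [Pi.sub_apply, Pi.single_apply, if_neg n0, if_neg n1, if_neg n2]
        omega
    · push Not at hA
      have p0 := hp 0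
      have p1 := hp 1
      have p2 := hp 2
      by_cases h2 : u 2 = 0
      · by_cases hu0 : 1 ≤ u 0
        · refine step _ (eI_mem C hC 0 (by simp)) (hI 0 (by simp)) (by simp) N ih u hu hN ?_
          rw [mem_iff hC]
          refine ⟨fun l => ?_, ?_⟩
          · rw [Pi.sub_apply, Pi.single_apply]
            have := hp l
            split_ifs with h
            · subst h
              omega
            · omega
          · simp only [Pi.sub_apply, Pi.single_apply, if_neg f20, if_neg f10]
            rw [if_pos trivial]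
            omega
        · by_cases hu1 : 1 ≤ u 1
          · refine step _ (eI_mem C hC 1 (by simp)) (hI 1 (by simp)) (by simp) N ih u hu hN ?_
            rw [mem_iff hC]
            refine ⟨fun l => ?_, ?_⟩
            · rw [Pi.sub_apply, Pi.single_apply]
              have := hp l
              split_ifs with h
              · subst h
                omega
              · omega
            · simp only [Pi.sub_apply, Pi.single_apply, if_neg f21, if_neg f10.symm]
              rw [if_pos trivial]
              omega
          · have hz : u = 0 := by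
              funext i
              show u i = 0
              by_cases hi : 3 ≤ (i : ℕ)
              · have := hA i hi
                have := hp i
                omega
              · have hcases : i = 0 ∨ i = 1 ∨ i = 2 := by
                  have : (i : ℕ) = 0 ∨ (i : ℕ) = 1 ∨ (i : ℕ) = 2 := by omega
                  rcases this with h | h | h
                  · left; exact Fin.ext h
                  · right; left; exact Fin.ext h
                  · right; right; exact Fin.ext (h.trans Fin.val_two.symm)
                rcases hcases with h | h | h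
                · subst h; omega
                · subst h; omega
                · subst h; omega
            subst hz
            exact h0 hu
      · by_cases hu1 : 1 ≤ u 1
        · refine step _ (e12_mem hC) h12 (by simp [Finset.sum_add_distrib]) N ih u hu hN ?_
          rw [mem_iff hC]
          refine ⟨fun l => ?_, ?_⟩
          · rw [Pi.sub_apply, Pi.add_apply, Pi.single_apply, Pi.single_apply]
            have := hp l
            by_cases l1 : l = 1
            · subst l1
              rw [if_pos rfl, if_neg f21.symm]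
              omega
            · by_cases l2 : l = 2
              · subst l2
                rw [if_pos rfl, if_neg l1]
                omega
              · rw [if_neg l1, if_neg l2]
                omega
          · simp only [Pi.sub_apply, Pi.add_apply, Pi.single_apply, if_neg f21, if_neg f21.symm,
              if_neg f10.symm, if_neg f20.symm]
            simp only [if_true]
            omega
        · by_cases h22 : 2 ≤ u 2
          · refine step _ (e022_mem hC) h022 (by simp [Finset.sum_add_distrib]) N ih u hu hN ?_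
            rw [mem_iff hC]
            refine ⟨fun l => ?_, ?_⟩
            · rw [Pi.sub_apply, Pi.add_apply, Pi.single_apply, Pi.single_apply]
              have := hp l
              by_cases l1 : l = 0
              · subst l1
                rw [if_pos rfl, if_neg f20.symm]
                omega
              · by_cases l2 : l = 2
                · subst l2
                  rw [if_pos rfl, if_neg l1]
                  omega
                · rw [if_neg l1, if_neg l2]
                  omega
            · simp only [Pi.sub_apply, Pi.add_apply, Pi.single_apply, if_neg f20, if_neg f20.symm,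
                if_neg f21.symm, if_neg f10]
              simp only [if_true]
              omega
          · refine step _ (e02_mem C hC) h02 (by simp [Finset.sum_add_distrib]) N ih u hu hN ?_
            rw [mem_iff hC]
            refine ⟨fun l => ?_, ?_⟩
            · rw [Pi.sub_apply, Pi.add_apply, Pi.single_apply, Pi.single_apply]
              have := hp l
              by_cases l1 : l = 0
              · subst l1
                rw [if_pos rfl, if_neg f20.symm]
                omega
              · by_cases l2 : l = 2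
                · subst l2
                  rw [if_pos rfl, if_neg l1]
                  omega
                · rw [if_neg l1, if_neg l2]
                  omega
            · simp only [Pi.sub_apply, Pi.add_apply, Pi.single_apply, if_neg f20, if_neg f20.symm,
                if_neg f21.symm, if_neg f10]
              simp only [if_true]
              omega

theorem rel1 (hC : Ext C) :
    mon K _ (e022_mem hC) * (mon K _ (eI_mem C hC 1 (by simp)) * mon K _ (eI_mem C hC 1 (by simp))) =
      mon K _ (eI_mem C hC 0 (by simp)) * (mon K _ (e12_mem hC) * mon K _ (e12_mem hC)) := by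
  unfold mon
  simp only [AddMonoidAlgebra.single_mul_single, one_mul]
  congr 1
  apply Subtype.ext
  show (Pi.single 0 1 + Pi.single 2 2 : Fin (n + 3) → ℤ) + (Pi.single 1 1 + Pi.single 1 1) =
    Pi.single 0 1 + ((Pi.single 1 1 + Pi.single 2 1) + (Pi.single 1 1 + Pi.single 2 1))
  have h : (Pi.single 2 2 : Fin (n + 3) → ℤ) = Pi.single 2 1 + Pi.single 2 1 := by
    rw [← Pi.single_add]
    norm_num
  rw [h]
  abel

theorem rel2 (hC : Ext C) :
    mon K _ (e02_mem C hC) * mon K _ (e02_mem C hC) =
      mon K _ (eI_mem C hC 0 (by simp)) * mon K _ (e022_mem hC) := by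
  unfold mon
  simp only [AddMonoidAlgebra.single_mul_single, one_mul]
  congr 1
  apply Subtype.ext
  show (Pi.single 0 1 + Pi.single 2 1 : Fin (n + 3) → ℤ) + (Pi.single 0 1 + Pi.single 2 1) =
    Pi.single 0 1 + (Pi.single 0 1 + Pi.single 2 2)
  have h : (Pi.single 2 2 : Fin (n + 3) → ℤ) = Pi.single 2 1 + Pi.single 2 1 := by
    rw [← Pi.single_add]
    norm_num
  rw [h]
  abel

theorem yy_zero (hC : Ext C) : yy K hC 0 = mon K _ (eI_mem C hC 0 (by simp)) := by
  unfold yy
  rw [dif_neg (by simp), if_neg (by simp)]

theorem yy_one (hC : Ext C) : yy K hC 1 = mon K _ (e12_mem hC) := by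
  unfold yy
  rw [dif_neg (by simp), if_pos (by simp)]

theorem yy_two (hC : Ext C) :
    yy K hC 2 = mon K _ (e022_mem hC) + mon K _ (eI_mem C hC 1 (by simp)) := by
  unfold yy
  rw [dif_pos Fin.val_two]

theorem yy_gen (hC : Ext C) (i : Fin (n + 3)) (hi : (i : ℕ) ≠ 2) (h1 : (i : ℕ) ≠ 1) :
    yy K hC i = mon K _ (eI_mem C hC i hi) := by
  unfold yy
  rw [dif_neg hi, if_neg h1]

theorem integral (hC : Ext C) :
    (MvPolynomial.aeval (R := K) (yy K hC)).toRingHom.IsIntegral := by
  let _ : Algebra (MvPolynomial (Fin (n + 3)) K) (C.Ring K) :=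
    (MvPolynomial.aeval (R := K) (yy K hC)).toRingHom.toAlgebra
  have hmap : ∀ i, algebraMap (MvPolynomial (Fin (n + 3)) K) (C.Ring K) (MvPolynomial.X i) =
      yy K hC i := fun i => MvPolynomial.aeval_X _ _
  have hy : ∀ i, IsIntegral (MvPolynomial (Fin (n + 3)) K) (yy K hC i) := by
    intro i
    rw [← hmap i]
    exact isIntegral_algebraMap
  have ha := hy 0
  rw [yy_zero] at ha
  have hq := hy 1
  rw [yy_one] at hq
  have hc : IsIntegral (MvPolynomial (Fin (n + 3)) K) (mon K _ (e022_mem hC)) := by
    refine ⟨Polynomial.X ^ 3 - Polynomial.C (MvPolynomial.X 2 + MvPolynomial.X 2) * Polynomial.X ^ 2 +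
      Polynomial.C (MvPolynomial.X 2 ^ 2) * Polynomial.X -
      Polynomial.C (MvPolynomial.X 0 * MvPolynomial.X 1 ^ 2), by monicity!, ?_⟩
    simp only [Polynomial.eval₂_sub, Polynomial.eval₂_add, Polynomial.eval₂_mul,
      Polynomial.eval₂_pow, Polynomial.eval₂_X, Polynomial.eval₂_C, map_mul, map_pow, map_add, hmap,
      yy_zero, yy_one, yy_two]
    linear_combination rel1 K hC
  have hp : IsIntegral (MvPolynomial (Fin (n + 3)) K) (mon K _ (eI_mem C hC 1 (by simp))) := by
    have := (hy 2).sub hc
    rw [yy_two, add_sub_cancel_left] at this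
    exact this
  have hb : IsIntegral (MvPolynomial (Fin (n + 3)) K) (mon K _ (e02_mem C hC)) := by
    refine IsIntegral.of_pow (n := 2) (by norm_num) ?_
    rw [sq, rel2 K hC]
    exact ha.mul hc
  have hmon : ∀ (u : Fin (n + 3) → ℤ) (hu : u ∈ C.S),
      IsIntegral (MvPolynomial (Fin (n + 3)) K) (mon K u hu) := by
    intro u hu
    refine gen_induction hC (fun u hu => IsIntegral (MvPolynomial (Fin (n + 3)) K) (mon K u hu))
      ?_ ?_ ?_ hb hq hc (∑ i, u i).toNat u hu (Int.self_le_toNat _)
    · intro h
      exact isIntegral_one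
    · intro u v hu hv h1 h2
      have := h1.mul h2
      rw [mon_mul K u v (u + v) hu hv (C.S.add_mem hu hv) rfl] at this
      exact this
    · intro i hi
      by_cases h1 : (i : ℕ) = 1
      · have : i = 1 := Fin.ext h1
        subst this
        exact hp
      · have := hy i
        rw [yy_gen K hC i hi h1] at this
        exact this
  intro f
  show IsIntegral (MvPolynomial (Fin (n + 3)) K) f
  induction f using AddMonoidAlgebra.induction_on with
  | of u => exact hmon u.1 u.2
  | add f g hf hg => exact hf.add hg
  | smul r f hf =>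
    have h : algebraMap (MvPolynomial (Fin (n + 3)) K) (C.Ring K) (MvPolynomial.C r) * f = r • f := by
      have h1 : algebraMap (MvPolynomial (Fin (n + 3)) K) (C.Ring K) (MvPolynomial.C r) =
          algebraMap K (C.Ring K) r := MvPolynomial.aeval_C _ _
      rw [h1, Algebra.smul_def]
    rw [← h]
    exact isIntegral_algebraMap.mul hf

theorem upper (hC : Ext C) : ringKrullDim (C.Ring K) ≤ ((n + 3 : ℕ) : WithBot ℕ∞) := by
  let _ : Algebra (MvPolynomial (Fin (n + 3)) K) (C.Ring K) :=
    (MvPolynomial.aeval (R := K) (yy K hC)).toRingHom.toAlgebra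
  have hint : Algebra.IsIntegral (MvPolynomial (Fin (n + 3)) K) (C.Ring K) := ⟨integral K hC⟩
  have h1 : ringKrullDim (C.Ring K) ≤ ringKrullDim (MvPolynomial (Fin (n + 3)) K) := by
    refine Order.krullDim_le_of_strictMono
      (PrimeSpectrum.comap (algebraMap (MvPolynomial (Fin (n + 3)) K) (C.Ring K))) ?_
    intro I J hIJ
    exact Ideal.IsIntegral.comap_lt_comap (I := I.asIdeal) (J := J.asIdeal) hIJ
  rw [MvPolynomial.ringKrullDim_of_isNoetherianRing, ringKrullDim_eq_zero_of_field, zero_add,
    Nat.card_fin] at h1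
  exact h1

end upper

/-- DIM -/
theorem dim : Pool.Agent.H867.FT.S_DIM := by
  intro d hd C h1 h2 K _
  obtain ⟨n, rfl⟩ : ∃ n, d = n + 3 := ⟨d - 3, by omega⟩
  have hC : Ext C := ⟨h1, h2⟩
  rw [IsLocalization.AtPrime.ringKrullDim_eq_height (C.maxIdeal K) (C.LocalRing K)]
  refine le_antisymm ?_ ?_
  · exact Ideal.height_le_ringKrullDim_of_isPrime.trans (upper K hC)
  · exact WithBot.coe_le_coe.2 (lower C K hC)

end Pool.Agent.H52.FT867DIM
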