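import Pool.Agent.H867.FT.Gen3

/-! The map to the residue field is surjective (SRJ). -/

set_option autoImplicit false

namespace Pool.Agent.H52.FT867SRJ

theorem srj : Pool.Agent.H867.FT.S_SRJ := by
  intro P R _ _ _ _ _ _ _ _ r
  have hloc : IsLocalHom (algebraMap P R) := Algebra.IsIntegral.isLocalHom P R
  have hint : Algebra.IsIntegral (IsLocalRing.ResidueField P) (IsLocalRing.ResidueField R) := by
    have : Module.Finite (IsLocalRing.ResidueField P) (IsLocalRing.ResidueField R) := inferInstance
    infer_instance
  obtain ⟨y, hy⟩ := (IsAlgClosed.algebraMap_bijective_of_isIntegral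
    (k := IsLocalRing.ResidueField P) (K := IsLocalRing.ResidueField R)).2
      (IsLocalRing.residue R r)
  obtain ⟨g, rfl⟩ := IsLocalRing.residue_surjective y
  refine ⟨g, ?_⟩
  rw [← IsLocalRing.residue_eq_zero_iff, map_sub, sub_eq_zero, ← hy]
  rfl

end Pool.Agent.H52.FT867SRJ
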