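import Mathlib
import Pool.Agent.H576.RD.Stm

/-!
# Project RD: LP, T5c and B8
-/

set_option autoImplicit false

namespace Pool.Agent.H52

open Pool.Agent.H576.RD Real

namespace RDLP

theorem nsq (v : E) : ‖v‖ ^ 2 = v 0 ^ 2 + v 1 ^ 2 + v 2 ^ 2 := by
  rw [EuclideanSpace.real_norm_sq_eq, Fin.sum_univ_three]

theorem ext3 {v w : E} (h0 : v 0 = w 0) (h1 : v 1 = w 1) (h2 : v 2 = w 2) : v = w := by
  ext i
  fin_cases i
  · exact h0
  · exact h1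
  · exact h2

theorem rrE_0 (θ : ℝ) (v : E) : rrE θ v 0 = cos θ * v 0 - sin θ * v 1 := by
  simp [rrE]

theorem rrE_1 (θ : ℝ) (v : E) : rrE θ v 1 = sin θ * v 0 + cos θ * v 1 := by
  simp [rrE]

theorem rrE_2 (θ : ℝ) (v : E) : rrE θ v 2 = -(v 2) := by
  simp [rrE]

theorem rrE_norm (θ : ℝ) (v : E) : ‖rrE θ v‖ = ‖v‖ := by
  have h : ‖rrE θ v‖ ^ 2 = ‖v‖ ^ 2 := by
    rw [nsq, nsq, rrE_0, rrE_1, rrE_2]
    have := sin_sq_add_cos_sq θ
    linear_combination (v 0 ^ 2 + v 1 ^ 2) * this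
  exact (sq_eq_sq₀ (norm_nonneg _) (norm_nonneg _)).1 h

theorem rrE_neg (θ : ℝ) (v : E) : rrE θ (rrE (-θ) v) = v := by
  have := sin_sq_add_cos_sq θ
  apply ext3
  · rw [rrE_0, rrE_0, rrE_1, sin_neg, cos_neg]
    linear_combination (v 0) * this
  · rw [rrE_1, rrE_0, rrE_1, sin_neg, cos_neg]
    linear_combination (v 1) * this
  · rw [rrE_2, rrE_2, neg_neg]

theorem sym_mem {X : Set E} {ρ θ : ℝ} (h : Sym X ρ (rrE θ)) {v : E} (hv : v ∈ X) (hn : ‖v‖ ≤ ρ) :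
    rrE θ v ∈ X := (h v hn).1 hv

theorem sym_mem_neg {X : Set E} {ρ θ : ℝ} (h : Sym X ρ (rrE θ)) {v : E} (hv : v ∈ X)
    (hn : ‖v‖ ≤ ρ) : rrE (-θ) v ∈ X := by
  refine (h (rrE (-θ) v) (by rwa [rrE_norm])).2 ?_
  rwa [rrE_neg]

end RDLP

open RDLP

theorem rd_lp : S_LP := by
  intro X ρ d hN h0 hd v p q hv hp hq hpn hqn hpq hρ hne
  obtain ⟨φ, hφ⟩ := hN 0 h0 v hv
  have key : ∀ z : E, z ∈ X → ‖z - v‖ ≤ ρ → (φ⁻¹ : LI) (z - v) ∈ X := by
    intro z hz hzn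
    have h1 := hφ ((φ⁻¹ : LI) (z - v)) (by rwa [LinearIsometryEquiv.norm_map])
    have h2 : φ ((φ⁻¹ : LI) (z - v)) = z - v := LinearIsometryEquiv.apply_symm_apply φ _
    rw [h2, zero_add, add_sub_cancel] at h1
    exact h1.2 hz
  have na : ‖(φ⁻¹ : LI) (p - v)‖ = ‖p - v‖ := LinearIsometryEquiv.norm_map _ _
  have nb : ‖(φ⁻¹ : LI) (q - v)‖ = ‖p - v‖ := by rw [LinearIsometryEquiv.norm_map, hpq]
  have ha := key p hp hρ
  have hb := key q hq (hpq ▸ hρ)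
  by_cases hoa : Off ((φ⁻¹ : LI) (p - v))
  · have := hd _ ha (by rw [na]; exact hρ) hoa
    rwa [na] at this
  by_cases hob : Off ((φ⁻¹ : LI) (q - v))
  · have := hd _ hb (by rw [nb]; exact hρ) hob
    rwa [nb] at this
  exfalso
  set a : E := (φ⁻¹ : LI) (p - v) with hadef
  set b : E := (φ⁻¹ : LI) (q - v) with hbdef
  unfold Off at hoa hob
  push Not at hoa hob
  have hsq : a 2 ^ 2 = b 2 ^ 2 := by
    have h1 : ‖a‖ ^ 2 = ‖b‖ ^ 2 := by rw [na, nb]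
    rw [nsq, nsq, hoa.1, hoa.2, hob.1, hob.2] at h1
    linarith
  rcases sq_eq_sq_iff_eq_or_eq_neg.1 hsq with h | h
  · have hab : a = b := ext3 (by rw [hoa.1, hob.1]) (by rw [hoa.2, hob.2]) h
    have h2 : p - v = q - v := (φ⁻¹ : LI).injective hab
    exact hne (sub_left_injective h2)
  · have hab : a = -b := by
      apply ext3
      · rw [hoa.1, PiLp.neg_apply, hob.1, neg_zero]
      · rw [hoa.2, PiLp.neg_apply, hob.2, neg_zero]
      · rw [PiLp.neg_apply]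
        exact h
    have h2 : p - v = -(q - v) := by
      apply (φ⁻¹ : LI).injective
      rw [map_neg]
      exact hab
    have h3 : p + q = (2 : ℝ) • v := by
      rw [two_smul]
      have : p = -(q - v) + v := by rw [← h2]; abel
      rw [this]
      abel
    have h4 := parallelogram_law_with_norm ℝ p q
    rw [h3, norm_smul, hpn, hqn, Real.norm_of_nonneg (by norm_num : (0 : ℝ) ≤ 2)] at h4
    have h5 : ‖p - q‖ * ‖p - q‖ = 0 := by nlinarith [h4]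
    have h6 : ‖p - q‖ = 0 := by
      rcases mul_eq_zero.1 h5 with h | h <;> exact h
    exact hne (sub_eq_zero.1 (norm_eq_zero.1 h6))

theorem rd_t5c (h : S_LP) : S_T5c := by
  intro X ρ d hN h0 hd0 hdρ hS hd v hv hvn hoff
  have hs2 : √2 ^ 2 = 2 := Real.sq_sqrt (by norm_num)
  have hspos : 0 < √2 := by positivity
  -- general step
  have step : ∀ p q : E, p ∈ X → q ∈ X → ‖p‖ = ‖v‖ → ‖q‖ = ‖v‖ → ‖p - v‖ = ‖q - v‖ → p ≠ q →
      d ^ 2 ≤ ‖p - v‖ ^ 2 := by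
    intro p q hp hq hpn hqn hpq hne
    have h1 : d ≤ ‖p - v‖ := by
      by_cases hle : ‖p - v‖ ≤ ρ
      · exact h X ρ d hN h0 hd v p q hv hp hq hpn hqn hpq hle hne
      · push Not at hle
        linarith
    exact pow_le_pow_left₀ hd0 h1 2
  have nz : v 0 ^ 2 + v 1 ^ 2 ≠ 0 := by
    intro hz
    have e0 : v 0 = 0 := by nlinarith [sq_nonneg (v 0), sq_nonneg (v 1)]
    have e1 : v 1 = 0 := by nlinarith [sq_nonneg (v 0), sq_nonneg (v 1)]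
    rcases hoff with h | h
    · exact h e0
    · exact h e1
  have c4 : cos (π / 4) = √2 / 2 := Real.cos_pi_div_four
  have s4 : sin (π / 4) = √2 / 2 := Real.sin_pi_div_four
  refine ⟨?_, ?_⟩
  · have hp := sym_mem hS hv hvn
    have hq := sym_mem_neg hS hv hvn
    have e1 : ‖rrE (π / 4) v - v‖ ^ 2 = (2 - √2) * (v 0 ^ 2 + v 1 ^ 2) + 4 * v 2 ^ 2 := by
      rw [nsq, PiLp.sub_apply, PiLp.sub_apply, PiLp.sub_apply, rrE_0, rrE_1, rrE_2, c4, s4]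
      linear_combination (1 / 2) * (v 0 ^ 2 + v 1 ^ 2) * hs2
    have e2 : ‖rrE (-(π / 4)) v - v‖ ^ 2 = (2 - √2) * (v 0 ^ 2 + v 1 ^ 2) + 4 * v 2 ^ 2 := by
      rw [nsq, PiLp.sub_apply, PiLp.sub_apply, PiLp.sub_apply, rrE_0, rrE_1, rrE_2, cos_neg,
        sin_neg, c4, s4]
      linear_combination (1 / 2) * (v 0 ^ 2 + v 1 ^ 2) * hs2
    have e3 : ‖rrE (π / 4) v - v‖ = ‖rrE (-(π / 4)) v - v‖ :=
      (sq_eq_sq₀ (norm_nonneg _) (norm_nonneg _)).1 (e1.trans e2.symm)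
    have hne : rrE (π / 4) v ≠ rrE (-(π / 4)) v := by
      intro he
      apply nz
      have f0 := congrArg (fun w : E => w 0) he
      have f1 := congrArg (fun w : E => w 1) he
      simp only [rrE_0, rrE_1, cos_neg, sin_neg, c4, s4] at f0 f1
      have g1 : v 1 = 0 := by
        have : √2 * v 1 = 0 := by linarith
        rcases mul_eq_zero.1 this with h | h
        · exact absurd h hspos.ne'
        · exact h
      have g0 : v 0 = 0 := by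
        have : √2 * v 0 = 0 := by linarith
        rcases mul_eq_zero.1 this with h | h
        · exact absurd h hspos.ne'
        · exact h
      rw [g0, g1]
      norm_num
    have := step _ _ hp hq (rrE_norm _ _) (rrE_norm _ _) e3 hne
    rwa [e1] at this
  · have hp1 := sym_mem hS hv hvn
    have hp := sym_mem hS hp1 (by rwa [rrE_norm])
    have hq1 := sym_mem_neg hS hv hvn
    have hq := sym_mem_neg hS hq1 (by rwa [rrE_norm])
    have np : ‖rrE (π / 4) (rrE (π / 4) v)‖ = ‖v‖ := by rw [rrE_norm, rrE_norm]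
    have nq : ‖rrE (-(π / 4)) (rrE (-(π / 4)) v)‖ = ‖v‖ := by rw [rrE_norm, rrE_norm]
    have p0 : rrE (π / 4) (rrE (π / 4) v) 0 = - v 1 := by
      rw [rrE_0, rrE_0, rrE_1, c4, s4]
      linear_combination (-(1 / 2)) * v 1 * hs2
    have p1 : rrE (π / 4) (rrE (π / 4) v) 1 = v 0 := by
      rw [rrE_1, rrE_0, rrE_1, c4, s4]
      linear_combination (1 / 2) * v 0 * hs2
    have p2 : rrE (π / 4) (rrE (π / 4) v) 2 = v 2 := by
      rw [rrE_2, rrE_2, neg_neg]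
    have q0 : rrE (-(π / 4)) (rrE (-(π / 4)) v) 0 = v 1 := by
      rw [rrE_0, rrE_0, rrE_1, cos_neg, sin_neg, c4, s4]
      linear_combination (1 / 2) * v 1 * hs2
    have q1 : rrE (-(π / 4)) (rrE (-(π / 4)) v) 1 = - v 0 := by
      rw [rrE_1, rrE_0, rrE_1, cos_neg, sin_neg, c4, s4]
      linear_combination (-(1 / 2)) * v 0 * hs2
    have q2 : rrE (-(π / 4)) (rrE (-(π / 4)) v) 2 = v 2 := by
      rw [rrE_2, rrE_2, neg_neg]
    have e1 : ‖rrE (π / 4) (rrE (π / 4) v) - v‖ ^ 2 = 2 * (v 0 ^ 2 + v 1 ^ 2) := by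
      rw [nsq, PiLp.sub_apply, PiLp.sub_apply, PiLp.sub_apply, p0, p1, p2]
      ring
    have e2 : ‖rrE (-(π / 4)) (rrE (-(π / 4)) v) - v‖ ^ 2 = 2 * (v 0 ^ 2 + v 1 ^ 2) := by
      rw [nsq, PiLp.sub_apply, PiLp.sub_apply, PiLp.sub_apply, q0, q1, q2]
      ring
    have e3 : ‖rrE (π / 4) (rrE (π / 4) v) - v‖ = ‖rrE (-(π / 4)) (rrE (-(π / 4)) v) - v‖ :=
      (sq_eq_sq₀ (norm_nonneg _) (norm_nonneg _)).1 (e1.trans e2.symm)
    have hne : rrE (π / 4) (rrE (π / 4) v) ≠ rrE (-(π / 4)) (rrE (-(π / 4)) v) := by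
      intro he
      apply nz
      have f0 := congrArg (fun w : E => w 0) he
      have f1 := congrArg (fun w : E => w 1) he
      simp only [p0, p1, q0, q1] at f0 f1
      have g1 : v 1 = 0 := by linarith
      have g0 : v 0 = 0 := by linarith
      rw [g0, g1]
      norm_num
    have := step _ _ hp hq np nq e3 hne
    rwa [e1] at this

namespace RDLP

/-- the four rotated copies and the lens inequality -/
theorem four {X : Set E} {L : ℝ} {b v : E} (hS : Sym X 1.8 (rrE (π / 4)))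
    (hb : ‖b‖ = L) (hlens : ∀ z ∈ X, ‖z‖ < L → L ≤ ‖z - b‖) (hv : v ∈ X) (hvn : ‖v‖ ≤ 1.8)
    (hvL : ‖v‖ < L) :
    (v 0 ^ 2 + v 1 ^ 2) * (b 0 ^ 2 + b 1 ^ 2) ≤ 2 * (‖v‖ ^ 2 / 2 - v 2 * b 2) ^ 2 ∧
      0 ≤ ‖v‖ ^ 2 / 2 - v 2 * b 2 := by
  have hL : 0 ≤ L := hb ▸ norm_nonneg b
  have hs2 : √2 ^ 2 = 2 := Real.sq_sqrt (by norm_num)
  have c4 : cos (π / 4) = √2 / 2 := Real.cos_pi_div_four
  have s4 : sin (π / 4) = √2 / 2 := Real.sin_pi_div_four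
  -- the quarter turn
  have quarter : ∀ z : E, z ∈ X → ‖z‖ ≤ 1.8 → ∃ z' : E, z' ∈ X ∧ ‖z'‖ = ‖z‖ ∧
      z' 0 = - z 1 ∧ z' 1 = z 0 ∧ z' 2 = z 2 := by
    intro z hz hzn
    refine ⟨rrE (π / 4) (rrE (π / 4) z), sym_mem hS (sym_mem hS hz hzn) (by rwa [rrE_norm]),
      by rw [rrE_norm, rrE_norm], ?_, ?_, ?_⟩
    · rw [rrE_0, rrE_0, rrE_1, c4, s4]
      linear_combination (-(1 / 2)) * z 1 * hs2
    · rw [rrE_1, rrE_0, rrE_1, c4, s4]
      linear_combination (1 / 2) * z 0 * hs2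
    · rw [rrE_2, rrE_2, neg_neg]
  have lensineq : ∀ z : E, z ∈ X → ‖z‖ < L → z 0 * b 0 + z 1 * b 1 + z 2 * b 2 ≤ ‖z‖ ^ 2 / 2 := by
    intro z hz hzL
    have h1 := hlens z hz hzL
    have h2 : L ^ 2 ≤ ‖z - b‖ ^ 2 := pow_le_pow_left₀ hL h1 2
    have h3 : L ^ 2 = b 0 ^ 2 + b 1 ^ 2 + b 2 ^ 2 := by rw [← hb, nsq]
    rw [nsq, PiLp.sub_apply, PiLp.sub_apply, PiLp.sub_apply] at h2
    rw [nsq]
    nlinarith [h2, h3]
  obtain ⟨v1, m1, n1, a0, a1, a2⟩ := quarter v hv hvn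
  obtain ⟨v2, m2, n2, b0, b1, b2⟩ := quarter v1 m1 (by rwa [n1])
  obtain ⟨v3, m3, n3, c0, c1, c2⟩ := quarter v2 m2 (by rwa [n2, n1])
  have i0 := lensineq v hv hvL
  have i1 := lensineq v1 m1 (by rwa [n1])
  have i2 := lensineq v2 m2 (by rwa [n2, n1])
  have i3 := lensineq v3 m3 (by rwa [n3, n2, n1])
  rw [n1, a0, a1, a2] at i1
  rw [n2, n1, b0, b1, b2, a0, a1, a2] at i2
  rw [n3, n2, n1, c0, c1, c2, b0, b1, b2, a0, a1, a2] at i3
  set T := ‖v‖ ^ 2 / 2 - v 2 * b 2 with hT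
  set α := v 0 * b 0 + v 1 * b 1 with hα
  set β := v 0 * b 1 - v 1 * b 0 with hβ
  have j0 : α ≤ T := by rw [hα, hT]; linarith
  have j2 : -α ≤ T := by rw [hα, hT]; linarith
  have j1 : β ≤ T := by rw [hβ, hT]; linarith
  have j3 : -β ≤ T := by rw [hβ, hT]; linarith
  have hT0 : 0 ≤ T := by linarith
  refine ⟨?_, hT0⟩
  have k1 : α ^ 2 ≤ T ^ 2 := sq_le_sq' (by linarith) j0
  have k2 : β ^ 2 ≤ T ^ 2 := sq_le_sq' (by linarith) j1
  have k3 : (v 0 ^ 2 + v 1 ^ 2) * (b 0 ^ 2 + b 1 ^ 2) = α ^ 2 + β ^ 2 := by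
    rw [hα, hβ]
    ring
  rw [k3]
  linarith

end RDLP

theorem rd_b8 (h1 : S_FINK) (h2 : S_T5c) : S_B8 := by
  intro r X L hD hN h0 hS hLens hL hex
  have hs2 : √2 ^ 2 = 2 := Real.sq_sqrt (by norm_num)
  have hspos : 0 ≤ √2 := Real.sqrt_nonneg 2
  have hs14 : 1.414 ≤ √2 := by
    rw [show (1.414 : ℝ) = √(1.414 ^ 2) by rw [Real.sqrt_sq (by norm_num)]]
    exact Real.sqrt_le_sqrt (by norm_num)
  -- the minimal off-axis vector
  have hfin : {v : E | ‖v‖ ≤ 0.2 ∧ v ∈ X ∧ Off v}.Finite := by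
    refine (h1 r X 0 0.2 hD).subset ?_
    rintro v ⟨e1, e2, -⟩
    exact ⟨e1, by rw [zero_add]; exact e2⟩
  obtain ⟨v₀, hv₀, hv₀n, hv₀o⟩ := hex
  obtain ⟨y, ⟨hyn, hyX, hyo⟩, hmin⟩ := Set.exists_min_image _ (fun v : E => ‖v‖) hfin
    ⟨v₀, hv₀n, hv₀, hv₀o⟩
  have hd : ∀ v ∈ X, ‖v‖ ≤ 1.8 → Off v → ‖y‖ ≤ ‖v‖ := by
    intro v hv hvn hvo
    by_cases h : ‖v‖ ≤ 0.2
    · exact hmin v ⟨h, hv, hvo⟩
    · push Not at h
      linarith
  have hy0 : y ≠ 0 := by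
    intro h
    rw [h] at hyo
    rcases hyo with h | h
    · exact h rfl
    · exact h rfl
  have hdpos : 0 < ‖y‖ := norm_pos_iff.2 hy0
  obtain ⟨t1, t2⟩ := h2 X 1.8 ‖y‖ hN h0 hdpos.le (by linarith) hS hd y hyX (by linarith) hyo
  -- lens partner
  obtain ⟨b, hbX, hbL, hbl⟩ := hLens 0 h0
  rw [sub_zero] at hbL
  have hbl' : ∀ z ∈ X, ‖z‖ < L → L ≤ ‖z - b‖ := by
    intro z hz hzL
    exact hbl z hz (by rwa [sub_zero])
  have hn := nsq y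
  have hb2 : b 0 ^ 2 + b 1 ^ 2 + b 2 ^ 2 = L ^ 2 := by rw [← nsq, hbL]
  -- the height
  have hheight : 0.1156 * ‖y‖ ^ 2 ≤ y 2 ^ 2 := by
    have e1 : (√2 - 1) * (y 0 ^ 2 + y 1 ^ 2) ≤ 3 * y 2 ^ 2 := by
      rw [hn] at t1
      linarith
    have e2 : 0.414 * (y 0 ^ 2 + y 1 ^ 2) ≤ (√2 - 1) * (y 0 ^ 2 + y 1 ^ 2) := by
      apply mul_le_mul_of_nonneg_right _ (by positivity)
      linarith
    rw [hn]
    nlinarith [sq_nonneg (y 0), sq_nonneg (y 1), sq_nonneg (y 2)]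
  have main : ∀ z : E, z ∈ X → ‖z‖ = ‖y‖ → z 0 ^ 2 + z 1 ^ 2 = y 0 ^ 2 + y 1 ^ 2 →
      z 2 ^ 2 = y 2 ^ 2 → 0 ≤ z 2 * b 2 → False := by
    intro z hz hzn hz1 hz2 hz3
    obtain ⟨f1, f2⟩ := four hS hbL hbl' hz (by rw [hzn]; linarith) (by rw [hzn]; linarith)
    rw [hz1, hzn] at f1
    rw [hzn] at f2
    set W := √(b 0 ^ 2 + b 1 ^ 2) with hW
    have hW2 : W ^ 2 = b 0 ^ 2 + b 1 ^ 2 := Real.sq_sqrt (by positivity)
    have hW0 : 0 ≤ W := Real.sqrt_nonneg _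
    have habs : z 2 * b 2 = |y 2| * |b 2| := by
      rw [← abs_mul, ← abs_of_nonneg hz3, ← sq_eq_sq₀ (abs_nonneg _) (abs_nonneg _), sq_abs, sq_abs,
        mul_pow, mul_pow, hz2]
    rw [habs] at f1 f2
    set T := ‖y‖ ^ 2 / 2 - |y 2| * |b 2| with hT
    have g1 : (‖y‖ * W) ^ 2 ≤ (2 * T) ^ 2 := by
      rw [← hW2] at f1
      have : ‖y‖ ^ 2 * W ^ 2 ≤ 2 * (y 0 ^ 2 + y 1 ^ 2) * W ^ 2 :=
        mul_le_mul_of_nonneg_right t2 (by positivity)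
      nlinarith [this, f1]
    have g2 : ‖y‖ * W ≤ 2 * T := by
      have := abs_le_of_sq_le_sq' g1 (by linarith)
      exact this.2
    have g3 : 0.34 * ‖y‖ ≤ |y 2| := by
      have : (0.34 * ‖y‖) ^ 2 ≤ |y 2| ^ 2 := by
        rw [sq_abs]
        nlinarith [hheight]
      exact (abs_le_of_sq_le_sq' this (abs_nonneg _)).2
    have g4 : 0.34 * ‖y‖ * |b 2| ≤ |y 2| * |b 2| := mul_le_mul_of_nonneg_right g3 (abs_nonneg _)
    have g5 : ‖y‖ * (W + 0.68 * |b 2|) ≤ ‖y‖ * ‖y‖ := by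
      rw [hT] at g2
      nlinarith [g2, g4]
    have g6 : W + 0.68 * |b 2| ≤ ‖y‖ := le_of_mul_le_mul_left g5 hdpos
    have g7 : W ≤ 0.2 := by
      have := abs_nonneg (b 2)
      linarith
    have g8 : |b 2| ≤ 0.3 := by linarith
    have g9 : b 2 ^ 2 ≤ 0.09 := by
      rw [← sq_abs]
      have := abs_nonneg (b 2)
      nlinarith
    nlinarith [hW2, hb2, g7, hW0, g9, hL]
  by_cases hsign : 0 ≤ y 2 * b 2
  · exact main y hyX rfl rfl rfl hsign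
  · push Not at hsign
    have c4 : cos (π / 4) = √2 / 2 := Real.cos_pi_div_four
    have s4 : sin (π / 4) = √2 / 2 := Real.sin_pi_div_four
    refine main (rrE (π / 4) y) (sym_mem hS hyX (by linarith)) (rrE_norm _ _) ?_ ?_ ?_
    · rw [rrE_0, rrE_1, c4, s4]
      linear_combination (1 / 2) * (y 0 ^ 2 + y 1 ^ 2) * hs2
    · rw [rrE_2]
      ring
    · rw [rrE_2]
      linarith

end Pool.Agent.H52
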